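import Pool.Agent.H.MP_847c7e_pr.A

/-! Every support-preserving convolution endomorphism is a Boltzmann reweighting. -/

namespace Pool.Agent.Results.MP_847c7e_pr.Boltz

/-- finitely supported probability measures on the lattice -/
def P (d : ℕ) := {μ : (Fin d → ℤ) →₀ ℝ // (∀ x, 0 ≤ μ x) ∧ ∑ x ∈ μ.support, μ x = 1}

/-- `ρ` is the convolution of `μ` and `ν` -/
def Conv {d : ℕ} (μ ν ρ : P d) : Prop := ∀ x, ρ.1 x = ∑ y ∈ μ.1.support, μ.1 y * ν.1 (x - y)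

theorem result {d : ℕ} (Φ : P d → P d) (hm : ∀ μ ν ρ, Conv μ ν ρ → Conv (Φ μ) (Φ ν) (Φ ρ))
    (hs : ∀ μ, (Φ μ).1.support = μ.1.support) : ∃ β : Fin d → ℝ, ∀ μ x, (Φ μ).1 x =
      μ.1 x * Real.exp (-∑ i, β i * x i) / ∑ y ∈ μ.1.support, μ.1 y * Real.exp (-∑ i, β i * y i) :=
  H.MP_847c7e_pr.main (d := d) Φ hm hs

end Pool.Agent.Results.MP_847c7e_pr.Boltz
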